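import Pool.Agent.W192.HK.Asm
import Pool.Agent.W216.CY.Div
import Pool.Agent.W45.CYK.AFE
import Pool.Agent.W287.HK.Basic
import Pool.Agent.W571.HK.Cls
import Pool.Agent.W53.HK.Fp
import Pool.Agent.W366.HK.Fpr
import Pool.Agent.W585.HK.LAT
import Pool.Agent.W692.HK.Ker
import Pool.Agent.W584.HK.CNT
import Pool.Agent.W513.HK.Divr
import Pool.Agent.W822.HK.MU
import Pool.Agent.W240.HK.Count
import Pool.Agent.W883.HK.Tail
import Pool.Agent.W930.HK.Mob
import Pool.Agent.W60.HK.Mainp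
import Pool.Agent.W359.HK.Dualp
import Pool.Agent.W701.HK.Finn
import Pool.Agent.W856.HK.Dec
import Pool.Agent.W636.HK.Gauss
import Pool.Agent.W348.HK.Pois
import Pool.Agent.W511.HK.AFE
import Pool.Agent.W29.HK.Prod
import Pool.Agent.W283.HK.PW
import Pool.Agent.W391.HK.Theta

/-!
# Hecke characters of infinity type `(2m - 1, 0)` twisted by ray class characters of large order, class number `> 1`

`R` is the ring of integers of an imaginary quadratic field `K` of class number `> 1`, `ψ` a primitive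
Hecke character of `K` of conductor `f` and infinity type `(2m - 1, 0)`, `m ≥ 2`.  For all but finitely
many primitive ray class characters `χ` of `K` of conductor `c` prime to `f` and of order at least
`N(c) ^ (2/3 + δ)` some Galois conjugate `χ ^ a` satisfies `|L(ψ χ ^ a, m)| ≥ N(c) ^ (-δ)`, `m` the
centre of the functional equation.

Joint work of helper192 with helper29, helper32, helper45, helper53, helper60, helper216, helper240,
helper283, helper287, helper348, helper359, helper366, helper391, helper511, helper513, helper571,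
helper584, helper585, helper636, helper692, helper701, helper822, helper856, helper883 and
helper930.
-/

set_option autoImplicit false

open Complex

namespace Pool.Agent.Results.MP_787500_nt.HigherWeightAnyClassNumber

/-- The norm `N(I)` of an ideal (`0` for the zero ideal, whose residue ring is infinite). -/
noncomputable def norm {R : Subring ℂ} (I : Ideal R) : ℝ := (Nat.card (R ⧸ I) : ℝ)

/-- `ψ`, a function on the ideals of `R`, is a primitive Hecke character of conductor `f` and infinity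
type `(n, 0)`: it is multiplicative, vanishes exactly at the zero ideal and the ideals not prime to
`f`, satisfies `ψ((α)) = α ^ n` for `α ≡ 1 mod f`, and this fails for every strictly larger ideal
`f'` in place of `f`.  For `n = 0` these are the primitive ray class characters of conductor `f`. -/
structure IsHecke {R : Subring ℂ} (n : ℕ) (f : Ideal R) (ψ : Ideal R → ℂ) : Prop where
  ne_bot : f ≠ ⊥
  mul : ∀ I J : Ideal R, ψ (I * J) = ψ I * ψ J
  eq_zero : ∀ I : Ideal R, ψ I = 0 ↔ (I = ⊥ ∨ ¬ IsCoprime I f)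
  principal : ∀ α : R, α ≠ 0 → α - 1 ∈ f → ψ (Ideal.span {α}) = (α : ℂ) ^ n
  primitive : ∀ f' : Ideal R, f < f' → ∃ α : R, α ≠ 0 ∧ α - 1 ∈ f' ∧ IsCoprime (Ideal.span {α}) f ∧
    ψ (Ideal.span {α}) ≠ (α : ℂ) ^ n

/-- `d` is the order of `χ`: the least positive integer with `χ(I) ^ d = 1` whenever `χ(I) ≠ 0`. -/
def IsOrder {R : Subring ℂ} (χ : Ideal R → ℂ) (d : ℕ) : Prop :=
  IsLeast {n : ℕ | 0 < n ∧ ∀ I : Ideal R, χ I ≠ 0 → χ I ^ n = 1} d

theorem isHecke_iff {R : Subring ℂ} (n : ℕ) (f : Ideal R) (ψ : Ideal R → ℂ) :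
    IsHecke n f ψ ↔ Pool.Agent.W192.HK.HC n f ψ :=
  ⟨fun h => ⟨h.ne_bot, h.mul, h.eq_zero, h.principal, h.primitive⟩,
    fun h => ⟨h.ne, h.mul, h.zero, h.princ, h.prim⟩⟩

theorem isOrder_iff {R : Subring ℂ} (χ : Ideal R → ℂ) (d : ℕ) :
    IsOrder χ d ↔ Pool.Agent.W192.HK.Od χ d :=
  ⟨fun h => ⟨h.1.1, h.1.2, fun _ hn h' => h.2 ⟨hn, h'⟩⟩,
    fun h => ⟨⟨h.pos, h.pow⟩, fun _ hn => h.least _ hn.1 hn.2⟩⟩

theorem pw_eq {R : Subring ℂ} (χ : Ideal R → ℂ) {a : ℕ} (ha : a ≠ 0) :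
    Pool.Agent.W192.HK.pw χ a = fun I => χ I ^ a := by
  funext I
  unfold Pool.Agent.W192.HK.pw
  split_ifs with h
  · rw [h, zero_pow ha]
  · rfl

/-- **Main theorem.** Let `m ≥ 2`, let `R = ℤ + ℤ ω` be a subring of `ℂ` that is a lattice and a Dedekind
domain but not a principal ideal domain, and `ψ` a primitive Hecke character of conductor `f` and
infinity type `(2m - 1, 0)` on the ideals of `R`.  For every primitive ray class character `χ` of
conductor `c` prime to `f` there is an entire function `L c χ` which for `Re s > m + 1/2` is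
`∑ ψ(I) χ(I) N(I)^(-s)`; and for all `M ≥ 1` and `δ > 0` there is `N₀` such that for all `c` prime to
`f` with `N(c) ≥ N₀` and all such `χ` of order `d ≥ N(c)^(2/3 + δ)` there is `a ≥ 1` prime to `d`,
`a ≡ 1 mod M`, such that `χ ^ a` is primitive of conductor `c` and `|L c (χ ^ a) m| ≥ N(c)^(-δ)`. -/
theorem result (m : ℕ) (hm : 2 ≤ m) (R : Subring ℂ) (ω : ℂ) (hω : 0 < ω.im)
    (hR : ∀ z : ℂ, z ∈ R ↔ ∃ x y : ℤ, z = x + y * ω) (hded : IsDedekindDomain R)
    (_hcl : ¬ IsPrincipalIdealRing R) (f : Ideal R) (ψ : Ideal R → ℂ)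
    (hψ : IsHecke (2 * m - 1) f ψ) :
    ∃ L : Ideal R → (Ideal R → ℂ) → ℂ → ℂ,
      (∀ (c : Ideal R) (χ : Ideal R → ℂ), IsCoprime f c → IsHecke 0 c χ →
        Differentiable ℂ (L c χ) ∧ ∀ s : ℂ, (m : ℝ) + 1 / 2 < s.re →
          HasSum (fun I : Ideal R => ψ I * χ I * (norm I : ℂ) ^ (-s)) (L c χ s)) ∧
      ∀ M : ℕ, 1 ≤ M → ∀ δ : ℝ, 0 < δ → ∃ N0 : ℝ, ∀ (c : Ideal R) (χ : Ideal R → ℂ),
        IsCoprime f c → IsHecke 0 c χ → N0 ≤ norm c → ∀ d : ℕ, IsOrder χ d →
          (norm c) ^ (2 / 3 + δ) ≤ d →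
          ∃ a : ℕ, 1 ≤ a ∧ Nat.Coprime a d ∧ a ≡ 1 [MOD M] ∧ IsHecke 0 c (fun I => χ I ^ a) ∧
            (norm c) ^ (-δ) ≤ ‖L c (fun I => χ I ^ a) (m : ℂ)‖ := by
  have hbasic := Pool.Agent.W287.HK.h_basic
  have hcls := Pool.Agent.W571.HK.h_cls hbasic
  have hfp := Pool.Agent.W53.HK.h_fp hbasic hcls
  have hfpr := Pool.Agent.W366.HK.h_fpr hbasic hcls
  have hlat := Pool.Agent.W585.HK.h_lat hbasic
  have hker := Pool.Agent.W692.HK.h_ker hbasic hcls hfpr
  have hcnt := Pool.Agent.W584.HK.h_cnt hbasic hcls hfpr hlat hker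
  have hdivr := Pool.Agent.W513.HK.h_divr hbasic
  have hmu := Pool.Agent.W822.HK.h_mu hbasic
  have hcount := Pool.Agent.W240.HK.h_count hbasic hcnt hdivr
  have htail := Pool.Agent.W883.HK.h_tail hbasic hcnt hcount
  have hmob := Pool.Agent.W930.HK.h_mob
  have hdiv := Pool.Agent.W216.CY.t_div
  have hmain := Pool.Agent.W60.HK.Mainp.h_mainp hbasic hcnt hdivr htail hmob hdiv
  have hdual := Pool.Agent.W359.HK.Dualp.h_dualp hdiv hbasic hcnt hker hmob hfpr
  have hfinn := Pool.Agent.W701.HK.Finn.h_finn hdiv hbasic hcnt hmu hmob hmain hdual hfpr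
  have hdec := Pool.Agent.W856.HK.h_dec hbasic
  have hgauss := Pool.Agent.W636.HK.h_gauss hbasic hfp
  have hpois := Pool.Agent.W348.HK.h_pois hbasic
  have htheta : Pool.Agent.W192.HK.H_THETA := Pool.Agent.W391.HK.h_theta hbasic hfp hdec hgauss hpois hcnt
  have hafe := Pool.Agent.W511.HK.h_afe hbasic hfp hcnt hgauss htheta
  have hprod := Pool.Agent.W29.HK.h_prod hbasic hfp
  have hpw := Pool.Agent.W283.HK.PW.h_pw hbasic
  obtain ⟨L, h1, h2⟩ := Pool.Agent.W192.HK.asm hbasic hcls hfp Pool.Agent.W45.CYK.vk hafe hfinn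
    hprod hpw ⟨hω, hR, hded⟩ m (by omega) f ψ ((isHecke_iff _ _ _).1 hψ)
  refine ⟨L, fun c χ hc hχ => ?_, fun M hM δ hδ => ?_⟩
  · have h3 := h1 c χ hc ((isHecke_iff _ _ _).1 hχ)
    refine ⟨h3.1, fun s hs => h3.2 s ?_⟩
    exact hs
  · obtain ⟨N0, hN0⟩ := h2 M hM δ hδ
    refine ⟨N0, fun c χ hc hχ hN d hd hdN => ?_⟩
    obtain ⟨a, ha0, ha1, ha2, ha3, ha4⟩ := hN0 c χ hc ((isHecke_iff _ _ _).1 hχ) hN d
      ((isOrder_iff _ _).1 hd) hdN
    rw [pw_eq χ (by omega)] at ha3 ha4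
    refine ⟨a, ha0, ha1, ha2, (isHecke_iff _ _ _).2 ha3, ?_⟩
    exact ha4

end Pool.Agent.Results.MP_787500_nt.HigherWeightAnyClassNumber
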