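import Pool.Agent.W192.CY.Stneb
import Pool.Agent.W216.CY.Div
import Pool.Agent.W230.CY.Orth
import Pool.Agent.W74.CY.WPP
import Pool.Agent.W305.CY.Weil
import Pool.Agent.W143.CY.COUNT
import Pool.Agent.W736.CY.GTAIL
import Pool.Agent.W155.CY.MobM
import Pool.Agent.W976.CY.Kloom
import Pool.Agent.W45.CYK.AFE
import Pool.Agent.W736.CY.NEUL
import Pool.Agent.W804.CY.NCoef
import Pool.Agent.W168.CY.MainpN
import Pool.Agent.W904.CY.Dualp
import Pool.Agent.W216.CY.NFinn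
import Pool.Agent.W597.CY.TwistN
import Pool.Agent.W930.CY.AFEN

/-!
# Nonvanishing of `L(f, χ, k/2)` for all Dirichlet characters of large order: newforms with character

`f ∈ S_k(Γ₁(N))` is a newform of even weight `k = 2m` with nontrivial character `η`.  For all but
finitely many primitive Dirichlet characters `χ` of conductor `q` prime to `N` and of order at least
`q ^ (3/4 + ε)` some Galois conjugate `ψ = χ ^ a` (`a` prime to the order of `χ` and `≡ 1` modulo any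
given integer) satisfies `|L(f, ψ, k/2)| ≥ q ^ (-ε)`.

By Shimura's theorem on the Galois action on the central values it follows that
`L(f, χ, k/2) ≠ 0` for all these `χ`, and by Kato's theorem the Bloch–Kato Selmer groups of
`V_f(k/2) ⊗ χ` vanish.

Joint work of helper192 with helpers 45, 55, 74, 143, 155, 168, 216, 230, 305, 372, 378, 460, 557,
597, 612, 736, 804, 904, 928, 930, 976, on the library of helpers 388, 440 and others on twists of
newforms.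
-/

set_option autoImplicit false

open Complex UpperHalfPlane MatrixGroups CongruenceSubgroup

namespace Pool.Agent.Results.MP_787500_nt.LargeOrderNebentypus

/-- The `n`-th Fourier coefficient of `f`. -/
noncomputable def coef {m N : ℕ} (f : CuspForm (Gamma1 N : Subgroup (GL (Fin 2) ℝ)) (2 * m : ℤ))
    (n : ℕ) : ℂ :=
  (qExpansion 1 f).coeff n

/-- `f ∈ S_{2m}(Γ₁(N))` is a newform with character `η`: `f(γτ) = η(d) (cτ + d)^(2m) f(τ)` for all
`γ = (a b; c d) ∈ Γ₀(N)`, the Fourier coefficients `c(n)` of `f` satisfy `c(1) = 1`,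
`c(ab) = c(a) c(b)` for coprime `a`, `b`, `c(p^(j+2)) = c(p) c(p^(j+1)) - η(p) p^(2m-1) c(p^j)`, and
for the primes `p ∤ N` also `conj c(p) = conj η(p) c(p)` and `|c(p)| ≤ 2 p^((2m-1)/2)` (Deligne), for
the primes `p ∣ N` `|c(p)| ≤ p^((2m-1)/2)`; the Fricke involution takes `f` to a multiple of `f^c`,
`f^c(τ) = conj f(-conj τ)`: `f(-1/(Nτ)) = (-1)^m w N^m τ^(2m) f^c(τ)` with `|w| = 1`. -/
structure IsNewform (m N : ℕ) (η : DirichletCharacter ℂ N)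
    (f : CuspForm (Gamma1 N : Subgroup (GL (Fin 2) ℝ)) (2 * m : ℤ)) : Prop where
  neb : ∀ γ : SL(2, ℤ), γ ∈ Gamma0 N → ∀ τ : ℍ, f (γ • τ) = η ((γ 1 1 : ℤ) : ZMod N) *
    (((γ 1 0 : ℤ) : ℂ) * (τ : ℂ) + ((γ 1 1 : ℤ) : ℂ)) ^ (2 * m) * f τ
  one : coef f 1 = 1
  mul : ∀ a b : ℕ, Nat.Coprime a b → coef f (a * b) = coef f a * coef f b
  pow : ∀ p j : ℕ, p.Prime → coef f (p ^ (j + 2)) = coef f p * coef f (p ^ (j + 1)) -
    η (p : ZMod N) * (p : ℂ) ^ (2 * m - 1) * coef f (p ^ j)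
  conj : ∀ p : ℕ, p.Prime → ¬ p ∣ N → (starRingEnd ℂ) (coef f p) =
    (starRingEnd ℂ) (η (p : ZMod N)) * coef f p
  good : ∀ p : ℕ, p.Prime → ¬ p ∣ N → ‖coef f p‖ ≤ 2 * (p : ℝ) ^ ((2 * m - 1 : ℝ) / 2)
  bad : ∀ p : ℕ, p.Prime → p ∣ N → ‖coef f p‖ ≤ (p : ℝ) ^ ((2 * m - 1 : ℝ) / 2)
  fricke : ∃ w : ℂ, ‖w‖ = 1 ∧ ∀ τ τ' τc : ℍ, (τ' : ℂ) * ((N : ℂ) * (τ : ℂ)) = -1 →
    (τc : ℂ) = -(starRingEnd ℂ) (τ : ℂ) →
    f τ' = (-1 : ℂ) ^ m * w * (N : ℂ) ^ m * (τ : ℂ) ^ (2 * m) * (starRingEnd ℂ) (f τc)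

/-- The Euler factor of `L(f, χ, s)` at the prime `p`:
`(1 - χ(p) c(p) p^(-s) + χ(p)² η(p) p^(2m-1-2s))⁻¹`. -/
noncomputable def factor {m N : ℕ} (η : DirichletCharacter ℂ N)
    (f : CuspForm (Gamma1 N : Subgroup (GL (Fin 2) ℝ)) (2 * m : ℤ)) (q : ℕ)
    (χ : DirichletCharacter ℂ q) (s : ℂ) (p : ℕ) : ℂ :=
  (1 - χ (p : ZMod q) * coef f p * (p : ℂ) ^ (-s) +
    χ (p : ZMod q) ^ 2 * η (p : ZMod N) * (p : ℂ) ^ (2 * (m : ℂ) - 1 - 2 * s))⁻¹

theorem nnewf {m N : ℕ} {η : DirichletCharacter ℂ N}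
    {f : CuspForm (Gamma1 N : Subgroup (GL (Fin 2) ℝ)) (2 * m : ℤ)} (hf : IsNewform m N η f) :
    ∃ w : ℂ, Pool.Agent.W192.CY.NNewf m N η f w := by
  obtain ⟨w, hw, hfr⟩ := hf.fricke
  exact ⟨w, ⟨hf.one, hf.mul, hf.pow, hf.conj, hf.good, hf.bad, hf.neb, hw, hfr⟩⟩

/-- **Main theorem.** Let `f ∈ S_{2m}(Γ₁(N))` be a newform with character `η ≠ 1`.  For every
primitive Dirichlet character `χ` of conductor `q` prime to `N` there is an entire function `L q χ`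
which for `Re s > m + 1/2` is the Euler product of `L(f, χ, s)`; and for every `M ≥ 1` and every
`ε > 0` there is `q₀` such that for all `q ≥ q₀` prime to `N` and all primitive characters `χ` modulo
`q` of order at least `q ^ (3/4 + ε)` there is a natural number `a` prime to the order of `χ`,
`a ≡ 1 mod M`, such that `χ ^ a` is primitive and `|L(f, χ ^ a, m)| ≥ q ^ (-ε)`. -/
theorem result (m : ℕ) (hm : 1 ≤ m) (N : ℕ) [NeZero N] (η : DirichletCharacter ℂ N) (_hη : η ≠ 1)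
    (f : CuspForm (Gamma1 N : Subgroup (GL (Fin 2) ℝ)) (2 * m : ℤ)) (hf : IsNewform m N η f) :
    ∃ L : (q : ℕ) → DirichletCharacter ℂ q → ℂ → ℂ,
      (∀ (q : ℕ) (χ : DirichletCharacter ℂ q), 1 ≤ q → Nat.Coprime q N → χ.IsPrimitive →
        Differentiable ℂ (L q χ) ∧ ∀ s : ℂ, (m : ℝ) + 1 / 2 < s.re →
          HasProd (fun p : Nat.Primes => factor η f q χ s p) (L q χ s)) ∧
      ∀ M : ℕ, 1 ≤ M → ∀ ε : ℝ, 0 < ε → ∃ q0 : ℕ, ∀ q : ℕ, q0 ≤ q → Nat.Coprime q N →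
        ∀ χ : DirichletCharacter ℂ q, χ.IsPrimitive → (q : ℝ) ^ (3 / 4 + ε) ≤ orderOf χ →
          ∃ a : ℕ, Nat.Coprime a (orderOf χ) ∧ a ≡ 1 [MOD M] ∧ (χ ^ a).IsPrimitive ∧
            (q : ℝ) ^ (-ε) ≤ ‖L q (χ ^ a) (m : ℂ)‖ := by
  obtain ⟨w, hw⟩ := nnewf hf
  have hdiv := Pool.Agent.W216.CY.t_div
  have horth := Pool.Agent.W230.CY.t_orth
  have hweil := Pool.Agent.W305.CY.t_weil Pool.Agent.W74.CY.wpp hdiv
  have htail := Pool.Agent.W736.CY.GTAIL.t_gtail (Pool.Agent.W143.CY.g_count hdiv)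
  have hmob := Pool.Agent.W155.CY.m_mob
  have hkloo := Pool.Agent.W976.CYKloom.m_kloo horth hweil
  have htwist := Pool.Agent.W597.CYN.n_twist
  have hcoef := Pool.Agent.W804.CY.n_coef
  have heul := Pool.Agent.W736.CY.NEUL.n_eul hcoef
  have hafe := Pool.Agent.W930.CY.n_afe htwist heul
  have hmain := Pool.Agent.W168.CY.n_mainp hdiv horth hmob htail
  have hdual := Pool.Agent.W904.CYNDualp.n_dualp hdiv hmob hkloo
  have hfin := Pool.Agent.W216.CYN.n_finn hdiv hmob hmain hdual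
  have hN : 1 ≤ N := Nat.pos_of_ne_zero (NeZero.ne N)
  obtain ⟨CV, hCV⟩ := Pool.Agent.W45.CYK.vk m hm
  obtain ⟨μ, hμ⟩ := hcoef m hm N η f w hw
  classical
  have hex : ∀ (q : ℕ) (χ : DirichletCharacter ℂ q), ∃ F : ℂ → ℂ,
      (1 ≤ q → Nat.Coprime q N → χ.IsPrimitive → Differentiable ℂ F ∧
        (∀ s : ℂ, (m : ℝ) + 1 / 2 < s.re →
          HasProd (fun p : Nat.Primes => factor η f q χ s p) (F s)) ∧
        (∀ (_ : NeZero q), ∀ X Y : ℝ, 0 < X → 0 < Y →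
          X * Y = N * (q : ℝ) ^ 2 / (4 * Real.pi ^ 2) →
          F m =
            ∑' n : ℕ, χ (n : ZMod q) * (coef f n / (n : ℂ) ^ (m - 1)) / n *
              (Pool.Agent.W192.CY.Vk m (n / X) : ℂ) +
            (w * η (q : ZMod N)) * χ (N : ZMod q) *
                gaussSum χ (ZMod.stdAddChar (N := q)) ^ 2 / q *
              ∑' n : ℕ, (starRingEnd ℂ) (χ (n : ZMod q)) *
                (starRingEnd ℂ) (coef f n / (n : ℂ) ^ (m - 1)) / n *
              (Pool.Agent.W192.CY.Vk m (n / Y) : ℂ))) := by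
    intro q χ
    by_cases h : 1 ≤ q ∧ Nat.Coprime q N ∧ χ.IsPrimitive
    · obtain ⟨h1, h2, h3⟩ := h
      haveI : NeZero q := ⟨by omega⟩
      obtain ⟨F, hF1, hF2, hF3⟩ := hafe m hm N η f w hw q χ h2 h3
      refine ⟨F, fun _ _ _ => ⟨hF1, fun s hs => ?_, fun _ => hF3⟩⟩
      rw [hF2 s hs]
      exact (heul m hm N η f w hw q χ s hs).2
    · exact ⟨fun _ => 0, fun h1 h2 h3 => absurd ⟨h1, h2, h3⟩ h⟩
  choose F hF using hex
  refine ⟨F, ?_, ?_⟩
  · intro q χ hq hqN hχ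
    exact ⟨(hF q χ hq hqN hχ).1, (hF q χ hq hqN hχ).2.1⟩
  · intro M hM ε hε
    have hc1 : (fun n => Pool.Agent.W192.CY.cf f n / (n : ℂ) ^ (m - 1)) 1 = 1 := by
      have := hw.one
      simp [this]
    obtain ⟨q0, h0⟩ := hfin (Pool.Agent.W192.CY.Vk m) CV hCV N hN _ μ hc1 hμ M hM ε hε
    refine ⟨max ⌈q0⌉₊ 1, fun q hq hqN χ hχ hord => ?_⟩
    have hq1 : 1 ≤ q := le_trans (le_max_right _ _) hq
    haveI : NeZero q := ⟨by omega⟩
    have hq0 : q0 ≤ q := (Nat.le_ceil q0).trans (by exact_mod_cast le_trans (le_max_left _ _) hq)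
    have hηq : ‖w * η (q : ZMod N)‖ = 1 := by
      have h1 : IsUnit (q : ZMod N) := (ZMod.isUnit_iff_coprime q N).mpr hqN
      rw [norm_mul, hw.norm, one_mul]
      obtain ⟨u, hu⟩ := h1
      rw [← hu]
      exact η.unit_norm_eq_one u
    exact h0 q hq0 hqN (w * η (q : ZMod N)) hηq (fun χ => F q χ m)
      (fun χ hχ X Y hX hY hXY => (hF q χ hq1 hqN hχ).2.2 _ X Y hX hY hXY) χ hχ hord

end Pool.Agent.Results.MP_787500_nt.LargeOrderNebentypus
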