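import Mathlib
import Pool.Agent.W262.SQ.Sum
import Pool.Agent.W262.SQ.DefS

/-!
# The dimension of the Bloch-Kato Selmer group of abelian varieties `A_{u,v}`: exponential moments

Let `E : y² = x (x - A) (x - B)`, let `D_1, ..., D_l` be products of nonzero integers and of
integral binary forms of degree one and two, the quadratic ones irreducible, all of them pairwise
non-proportional, let `ρ` be a homomorphism of `{±1}^l` to `GL_d(ℤ)`, and for coprime integers `u`,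
`v` let `A_{u,v}` be the twist of `E ^ d` by the composition of `ρ` with
`Gal(ℚ̄/ℚ) → Gal(ℚ(√D_1(u,v), ..., √D_l(u,v))/ℚ) → {±1}^l`, an abelian variety of dimension `d`
over `ℚ`. Then the average over the coprime pairs `(u, v)` in the squares
`(U, U + X] × (V, V + X]` with `|U|, |V| ≤ X ^ L` of `2 ^ (e * r)` is bounded for every `e` and `L`,
where the Selmer group `Sel_{2^∞}(A_{u,v}/ℚ)` contains `(ℤ/2^(l+1))^r`.
-/

namespace Pool.Agent.Results.MP_787500_nt.SelmerMoments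

open Finset

open Pool.Agent.W262.SH (E Rep HasZ)

open Pool.Agent.W262.SQ (SelAb)

/-- `D i (u, v) = b i * ∏ (α j * u + β j * v) * ∏ (p j * u ^ 2 + q j * u * v + s j * v ^ 2)`, the
products over the `j` with `g j = i` and with `h j = i` -/
def D {l m n : ℕ} (b : Fin l → ℤ) (g : Fin m → Fin l) (h : Fin n → Fin l)
    (α β : Fin m → ℤ) (p q s : Fin n → ℤ) (t : ℤ × ℤ) (i : Fin l) : ℤ :=
  b i * ((∏ j ∈ univ.filter (fun j => g j = i), (α j * t.1 + β j * t.2)) *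
    ∏ j ∈ univ.filter (fun j => h j = i), (p j * t.1 ^ 2 + q j * (t.1 * t.2) + s j * t.2 ^ 2))

theorem D_eq {l m n : ℕ} (b : Fin l → ℤ) (g : Fin m → Fin l)
    (h : Fin n → Fin l) (α β : Fin m → ℤ) (p q s : Fin n → ℤ) :
    Pool.Agent.W262.SQ.Db b g h α β p q s = D b g h α β p q s := rfl

/-- The averages of `2 ^ (e * r t)` over the coprime pairs `t` of short squares are bounded. -/
theorem result (l m n d : ℕ) (hd : 0 < d) (ρ : Rep l d) (A B : ℤ) (b : Fin l → ℤ)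
    (g : Fin m → Fin l) (h : Fin n → Fin l) (α β : Fin m → ℤ) (p q s : Fin n → ℤ)
    (hA : A ≠ 0) (hB : B ≠ 0) (hAB : A ≠ B) (hb : ∀ i, b i ≠ 0)
    (h0 : ∀ i, α i ≠ 0 ∨ β i ≠ 0) (h1 : ∀ i j, i ≠ j → α i * β j ≠ α j * β i)
    (h2 : ∀ j, ¬ IsSquare (q j ^ 2 - 4 * p j * s j))
    (h3 : ∀ i j, i ≠ j → ¬ (p i * q j = p j * q i ∧ p i * s j = p j * s i ∧ q i * s j = q j * s i))
    (e L : ℕ) :
    ∃ C : ℝ, ∀ r : ℤ × ℤ → ℕ,
      (∀ t, (∀ i, D b g h α β p q s t i ≠ 0) →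
        HasZ (SelAb (E A B) (D b g h α β p q s t) ρ) (2 ^ (l + 1)) (r t)) →
      ∀ (U V : ℤ) (X : ℕ), 1 ≤ X → |U| ≤ (X : ℤ) ^ L → |V| ≤ (X : ℤ) ^ L →
      ∑ t ∈ (Ioc U (U + X) ×ˢ Ioc V (V + X)).filter
        (fun t : ℤ × ℤ => IsCoprime t.1 t.2 ∧ ∀ i, D b g h α β p q s t i ≠ 0),
        (2 : ℝ) ^ (e * r t) ≤ C * (X : ℝ) ^ 2 := by
  obtain ⟨C, -, hC⟩ := Pool.Agent.W262.SQ.rC (max e 1 * d)
    (Nat.one_le_iff_ne_zero.2 (Nat.mul_ne_zero (by omega) (by omega))) A B b g h α β p q s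
    ⟨h1, h0, h2, h3⟩ hA hB hAB hb L
  refine ⟨d * (2 ^ l * C), fun r hr U V X hX hU hV => ?_⟩
  have hne : ∀ t ∈ (Ioc U (U + X) ×ˢ Ioc V (V + X)).filter
      (fun t : ℤ × ℤ => IsCoprime t.1 t.2 ∧ ∀ i, D b g h α β p q s t i ≠ 0),
      ∀ i, D b g h α β p q s t i ≠ 0 := fun t ht => (mem_filter.1 ht).2.2
  have key := Pool.Agent.W262.SQ.sumT Pool.Agent.W509.SH.lat Pool.Agent.W756.SH.Twi.twi
    Pool.Agent.W352.SH.grp hd
    ((Ioc U (U + X) ×ˢ Ioc V (V + X)).filter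
      (fun t : ℤ × ℤ => IsCoprime t.1 t.2 ∧ ∀ i, D b g h α β p q s t i ≠ 0))
    (fun _ => A) (fun _ => B) (fun t => D b g h α β p q s t) ρ (C * (X : ℝ) ^ 2) (max e 1) r
    (fun _ _ => hA) (fun _ _ => hB) (fun _ _ => hAB) hne
    (fun t ht => (Pool.Agent.W262.SQ.has_selAb _ _ _ _ _).1 (hr t (hne t ht)))
    (fun S => by
      have h4 := hC (U, V, X) ⟨hX, hU, hV⟩ S
      rw [D_eq] at h4
      convert h4)
  rw [← mul_assoc (2 ^ l : ℝ), ← mul_assoc] at key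
  refine le_trans (sum_le_sum fun t _ => ?_) key
  exact pow_le_pow_right₀ (by norm_num) (Nat.mul_le_mul_right _ (le_max_left e 1))

end Pool.Agent.Results.MP_787500_nt.SelmerMoments
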